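import Pool.Agent.Lib.helper8.Kneser2

set_option autoImplicit false

open Finset
open scoped Pointwise

namespace Pool.Agent.Results.MP_25b479_co.Signed

open Pool.Agent.Lib.helper8.Kneser

section
variable {G : Type} [AddCommGroup G] [Fintype G] [DecidableEq G]

theorem sf_bound (S : Finset G) (hS : ∀ a ∈ S, ∀ b ∈ S, a + b ∉ S) :
    3 * S.card ≤ Fintype.card G ∨
      ∃ m, m % 3 = 2 ∧ m ∣ Fintype.card G ∧ 3 * m * S.card ≤ (m + 1) * Fintype.card G := by
  rcases S.eq_empty_or_nonempty with rfl | hne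
  · simp
  have k := kneser S S hne hne
  set H := st (S + S) with hH
  have sH : IsSub H := st_sub _
  have dj : Disjoint (S + H) (S + S) := by
    refine disjoint_left.2 (fun z hz hz' => ?_)
    obtain ⟨s, hs, g, hg, rfl⟩ := mem_add.1 hz
    have := mem_st.1 (sH.neg hg) _ hz'
    rw [show -g + (s + g) = s by abel] at this
    obtain ⟨a, ha, b, hb, rfl⟩ := mem_add.1 this
    exact hS a ha b hb hs
  have tot := card_le_univ ((S + H) ∪ (S + S))
  rw [card_union_of_disjoint dj] at tot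
  obtain ⟨c, hc⟩ := Per.dvd sH _ _ rfl (per_add sH S)
  obtain ⟨m, hm⟩ := Per.dvd sH _ _ rfl (sub_univ.per (subset_univ H))
  rw [card_univ] at hm
  have le := card_le_card (sub_add sH S)
  have hp : 0 < H.card := card_pos.2 ⟨0, sH.zero⟩
  rw [hc] at k le tot
  rw [hm] at tot ⊢
  have h2 : 3 * c ≤ m + 1 := Nat.le_of_mul_le_mul_left (by nlinarith) hp
  by_cases h3 : 3 * c ≤ m
  · left; nlinarith
  · right
    refine ⟨m, by omega, Dvd.intro_left _ rfl, ?_⟩
    have : 3 * c = m + 1 := by omega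
    calc 3 * m * S.card ≤ 3 * m * (H.card * c) := Nat.mul_le_mul_left _ le
      _ = (3 * c) * (H.card * m) := by ring
      _ = _ := by rw [this]

theorem sym (A : Finset G) (hA : ∀ a ∈ A, ∀ b ∈ A, ∀ c ∈ A, a + b + c ≠ 0 ∧ a + b ≠ c) :
    ∃ S : Finset G, A.card ≤ S.card ∧ (∀ a ∈ S, ∀ b ∈ S, a + b ∉ S) ∧ ∀ a ∈ S, -a ∈ S := by
  refine ⟨univ.filter (fun x => x ∈ A ∨ -x ∈ A), card_le_card (fun x hx => by simp [hx]), ?_, ?_⟩
  · simp only [mem_filter, mem_univ, true_and]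
    rintro a (ha | ha) b (hb | hb) (hc | hc)
    · exact (hA _ ha _ hb _ hc).2 rfl
    · exact (hA _ ha _ hb _ hc).1 (by abel)
    · exact (hA _ hc _ hb _ ha).2 (by abel)
    · exact (hA _ ha _ hc _ hb).2 (by abel)
    · exact (hA _ hc _ ha _ hb).2 (by abel)
    · exact (hA _ hb _ hc _ ha).2 (by abel)
    · exact (hA _ ha _ hb _ hc).1 (by abel)
    · exact (hA _ ha _ hb _ hc).2 (by abel)
  · simp only [mem_filter, mem_univ, true_and, neg_neg]
    tauto
end

theorem low (n : ℕ) [NeZero n] (d e : ℕ) (hd : n = d * e) :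
    ∃ A : Finset (ZMod n), (∀ a ∈ A, ∀ b ∈ A, ∀ c ∈ A, a + b + c ≠ 0 ∧ a + b ≠ c) ∧
      A.card = ((2 * d + 2) / 3 - (d / 3 + 1)) * e := by
  have hd0 : 0 < d := Nat.pos_of_ne_zero (by rintro rfl; exact NeZero.ne n (by omega))
  have dv : d ∣ n := Dvd.intro _ hd.symm
  refine ⟨lift n d (Ico (d / 3 + 1) ((2 * d + 2) / 3)), fun a ha b hb c hc =>
    ⟨fun h => ?_, fun h => ?_⟩, ?_⟩
  · rw [mem_lift, mem_Ico] at ha hb hc
    have := congrArg (fun x : ZMod n => x.val % d) h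
    simp only [ZMod.val_zero, Nat.zero_mod] at this
    rw [val_add_mod dv, val_add_mod dv, Nat.mod_add_mod] at this
    generalize a.val % d = x at *
    generalize b.val % d = y at *
    generalize c.val % d = z at *
    rw [show x + y + z = (x + y + z - d) + d by omega, Nat.add_mod_right,
      Nat.mod_eq_of_lt (by omega)] at this
    omega
  · rw [mem_lift, mem_Ico] at ha hb hc
    rw [← h, val_add_mod dv] at hc
    generalize a.val % d = x at *
    generalize b.val % d = y at *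
    rcases Nat.lt_or_ge (x + y) d with h1 | h1
    · rw [Nat.mod_eq_of_lt h1] at hc; omega
    · rw [show x + y = (x + y - d) + d by omega, Nat.add_mod_right,
        Nat.mod_eq_of_lt (by omega)] at hc
      omega
  · rw [card_lift hd (fun x hx => by rw [mem_Ico] at hx; omega), Nat.card_Ico]

theorem result (n : ℕ) (hn : 0 < n) :
    (∀ p : ℕ, IsLeast {q : ℕ | q.Prime ∧ q ∣ n ∧ q % 3 = 2} p →
      IsGreatest {x : ℚ | ∃ A : Finset (ZMod n),
        (∀ a ∈ A, ∀ b ∈ A, ∀ c ∈ A, a + b + c ≠ 0 ∧ a + b ≠ c) ∧ (A.card : ℚ) = x}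
        ((1 + 1 / p) * n / 3)) ∧
    ((∀ q : ℕ, q.Prime → q ∣ n → q % 3 ≠ 2) →
      IsGreatest {m : ℕ | ∃ A : Finset (ZMod n),
        (∀ a ∈ A, ∀ b ∈ A, ∀ c ∈ A, a + b + c ≠ 0 ∧ a + b ≠ c) ∧ A.card = m} ((n - 1) / 3)) := by
  have : NeZero n := ⟨hn.ne'⟩
  refine ⟨fun p hp => ⟨?_, ?_⟩, fun h => ⟨?_, ?_⟩⟩
  · obtain ⟨⟨h1, ⟨e, he⟩, h3⟩, -⟩ := hp
    obtain ⟨A, hA, hc⟩ := low n p e he
    refine ⟨A, hA, ?_⟩
    obtain ⟨k, rfl⟩ : ∃ k, p = 3 * k + 2 := ⟨p / 3, by omega⟩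
    rw [hc, show (2 * (3 * k + 2) + 2) / 3 - ((3 * k + 2) / 3 + 1) = k + 1 by omega, he]
    push_cast
    field_simp
    ring
  · rintro _ ⟨A, hA, rfl⟩
    obtain ⟨S, hS, s1, -⟩ := sym A hA
    have hS' : (A.card : ℚ) ≤ S.card := by exact_mod_cast hS
    have p0 : (0 : ℚ) < p := by exact_mod_cast hp.1.1.pos
    have n0' : (0 : ℚ) ≤ n := by positivity
    rcases sf_bound S s1 with h | ⟨m, h1, h2, h3⟩
    · rw [ZMod.card] at h
      have h' : (3 : ℚ) * S.card ≤ n := by exact_mod_cast h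
      have : 0 ≤ 1 / (p : ℚ) * n := by positivity
      linarith
    · rw [ZMod.card] at h2 h3
      obtain ⟨q, q1, q2, q3⟩ := ex_prime_mod (Or.inl ⟨rfl, rfl⟩) m h1
      have m0 : 0 < m := by omega
      have pm : p ≤ m := (hp.2 ⟨q1, q2.trans h2, q3⟩).trans (Nat.le_of_dvd m0 q2)
      have h' : (3 : ℚ) * m * S.card ≤ (m + 1) * n := by exact_mod_cast h3
      have m0' : (0 : ℚ) < m := by exact_mod_cast m0
      have e1 : (3 : ℚ) * S.card ≤ (1 + 1 / m) * n := by
        rw [show (1 + 1 / (m : ℚ)) * n = (m + 1) * n / m by field_simp, le_div_iff₀ m0']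
        linarith
      have e2 : 1 / (m : ℚ) ≤ 1 / p := one_div_le_one_div_of_le p0 (by exact_mod_cast pm)
      have e3 := mul_le_mul_of_nonneg_right e2 n0'
      linarith
  · obtain ⟨A, hA, hc⟩ := low n n 1 (by omega)
    refine ⟨A, hA, ?_⟩
    have : n % 3 ≠ 2 := fun e => by
      obtain ⟨q, q1, q2, q3⟩ := ex_prime_mod (Or.inl ⟨rfl, rfl⟩) n e
      exact h q q1 q2 q3
    obtain ⟨k, hk | hk⟩ : ∃ k, n = 3 * k ∨ n = 3 * k + 1 := ⟨n / 3, by omega⟩ <;> omega
  · rintro _ ⟨A, hA, rfl⟩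
    obtain ⟨S, hS, s1, s2⟩ := sym A hA
    have odd : n % 2 = 1 := by
      by_contra e
      exact h 2 Nat.prime_two (by omega) rfl
    have ev : S.card % 2 = 0 := by
      have : ∑ _x ∈ S, (1 : ZMod 2) = 0 := by
        refine sum_involution (fun x _ => -x) (fun _ _ => by decide) (fun x hx _ e => ?_)
          (fun x hx => s2 x hx) (fun x _ => neg_neg x)
        have e2 : (2 : ZMod n) * x = 0 := by linear_combination -e
        have u : IsUnit ((2 : ℕ) : ZMod n) :=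
          (ZMod.isUnit_iff_coprime 2 n).2 (Nat.coprime_two_left.2 (Nat.odd_iff.2 odd))
        have x0 : x = 0 := by
          have := u.mul_right_eq_zero.1 (by exact_mod_cast e2)
          exact this
        subst x0
        exact s1 0 hx 0 hx (by simpa using hx)
      rw [sum_const, nsmul_eq_mul, mul_one] at this
      exact Nat.mod_eq_zero_of_dvd ((ZMod.natCast_eq_zero_iff _ 2).1 this)
    rcases sf_bound S s1 with h1 | ⟨m, h1, h2, -⟩
    · rw [ZMod.card] at h1
      omega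
    · rw [ZMod.card] at h2
      obtain ⟨q, q1, q2, q3⟩ := ex_prime_mod (Or.inl ⟨rfl, rfl⟩) m h1
      exact absurd q3 (h q q1 (q2.trans h2))

end Pool.Agent.Results.MP_25b479_co.Signed
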